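import Pool.Agent.Q201.AR.Stm

/-!
# Project AR (helper201), job DPR
-/

set_option autoImplicit false

open FirstOrder FirstOrder.Language Pool.Agent.Helper227.EN

namespace Pool.Agent.Q256.AR.DPR

open Q201.AR

lemma rr_code {k r : ℕ} {M : Type} [LR.Structure M] {ι : M → M} {code : ℕ → (Fin k → M) → M}
    {S : Fin r → (Fin k → M) → Prop} (h : Coded k r M ι code S) (l : Fin k) (t : Fin k → M)
    (b : M) : rr (code l t) (ι b) ↔ b = t l := by
  rw [h.rel]
  have hk := h.kpos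
  have hlt := l.isLt
  constructor
  · rintro (⟨i, t', hi, _, h2⟩ | ⟨i, t', l', hi, hl', h1, h2⟩ | ⟨j, t', _, _, h2⟩)
    · exact absurd h2 (h.good.disj (i + 1) t' b hi)
    · obtain ⟨h3, h4⟩ := h.good.cinj _ _ _ _ (by omega) hi h1
      have h5 : l' = l := by
        apply Fin.ext
        rw [hl', ← h3]
        omega
      rw [h5] at h2
      rw [h4]
      exact h.good.inj h2
    · exact absurd h2 (h.good.disj l t b (by omega))
  · rintro rfl
    exact Or.inr (Or.inl ⟨l, t, l, by omega, by omega, rfl, rfl⟩)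

/-- the relation symbol -/
def Rsym : LR.Relations 2 := ⟨0, rfl⟩

theorem t_DPR : S_DPR := by
  intro hP hC k r l
  obtain ⟨P, hP⟩ := hP k r
  obtain ⟨C, hC⟩ := hC ‹S_DP› k r l (by have := l.isLt; omega)
  let φ : LR.Formula (Fin 2 ⊕ Unit) :=
    (C.relabel ![Sum.inr (), Sum.inl 0] ⊓ P.relabel ![Sum.inl 1]) ⊓
      Rsym.formula₂ (Term.var (Sum.inr ())) (Term.var (Sum.inl 1))
  refine ⟨φ.iExs Unit, ?_⟩
  intro M _ ι code S h v
  have h1 := hP M ι code S h
  have h2 := hC M ι code S h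
  rw [Formula.realize_iExs]
  have hφ : ∀ w : Unit → M, φ.Realize (Sum.elim v w) ↔
      ((∃ t, w () = code l t ∧ v 0 = code 0 t) ∧ ∃ a, v 1 = ι a) ∧ rr (w ()) (v 1) := by
    intro w
    show ((C.relabel ![Sum.inr (), Sum.inl 0] ⊓ P.relabel ![Sum.inl 1]) ⊓
      Rsym.formula₂ (Term.var (Sum.inr ())) (Term.var (Sum.inl 1)) :
        LR.Formula (Fin 2 ⊕ Unit)).Realize (Sum.elim v w) ↔ _
    rw [Formula.realize_inf, Formula.realize_inf, Formula.realize_relabel,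
      Formula.realize_relabel, Formula.realize_rel₂, h1, h2]
    rfl
  constructor
  · rintro ⟨w, hw⟩
    obtain ⟨⟨⟨t, ht1, ht2⟩, a, ha⟩, h3⟩ := (hφ w).1 hw
    rw [ht1, ha, rr_code h] at h3
    exact ⟨t, ht2, by rw [ha, h3]⟩
  · rintro ⟨t, ht0, ht1⟩
    refine ⟨fun _ => code l t, (hφ _).2 ⟨⟨⟨t, rfl, ht0⟩, ⟨t l, ht1⟩⟩, ?_⟩⟩
    rw [ht1]
    exact (rr_code h l t (t l)).2 rfl

end Pool.Agent.Q256.AR.DPR
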